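import Mathlib
import Pool.Agent.X47.MadNumeric

/-!
# MP_0f9677_co: the product of the maximum average degrees of a graph and its complement

The exact value of `f(n)` for every `n ≥ 1`; it is attained by a clique with isolated vertices.
-/

namespace Pool.Agent.Results.MP_0f9677_co.ExactValue

/-- The maximum average degree: the supremum (a maximum) of `2|E(H)|/|V(H)|` over all subgraphs
`H` with at least one vertex. -/
noncomputable def Mad {n : ℕ} (G : SimpleGraph (Fin n)) : ℝ :=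
  sSup {r | ∃ H : G.Subgraph, H.verts.Nonempty ∧
    r = 2 * (H.edgeSet.ncard : ℝ) / (H.verts.ncard : ℝ)}

/-- `f(n)`: the largest value of `Mad(G)·Mad(complement of G)` over graphs on `n` vertices. -/
noncomputable def f (n : ℕ) : ℝ := sSup {r | ∃ G : SimpleGraph (Fin n), r = Mad G * Mad Gᶜ}

/-- The graph consisting of a clique on `x` vertices and `n - x` isolated vertices. -/
def cliqueType (n x : ℕ) : SimpleGraph (Fin n) where
  Adj i j := i ≠ j ∧ (i : ℕ) < x ∧ (j : ℕ) < x
  symm := ⟨fun _ _ h => ⟨h.1.symm, h.2.2, h.2.1⟩⟩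
  loopless := ⟨fun _ h => h.1 rfl⟩

/-- The optimal clique size, `⌊(1 + √(12n²-12n+1))/6⌋ + 1`. -/
def xopt (n : ℕ) : ℕ := (Nat.sqrt (12 * n ^ 2 - 12 * n + 1) + 1) / 6 + 1

/-! ### The optimal clique size -/

/-- The product for cliques, times `n`. -/
def hz (n x : ℕ) : ℤ := ((x : ℤ) - 1) * (((n : ℤ) - x) * (n + x - 1))

lemma hz_step (n x : ℕ) : hz n (x + 1) - hz n x = (n : ℤ) ^ 2 - n - (x * (3 * x - 1)) := by
  unfold hz
  push_cast
  ring

lemma xopt_iff (n x : ℕ) (hn : 1 ≤ n) (hx : 1 ≤ x) :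
    x + 1 ≤ xopt n ↔ (x : ℤ) * (3 * x - 1) ≤ (n : ℤ) ^ 2 - n := by
  unfold xopt
  have h1 : x + 1 ≤ (Nat.sqrt (12 * n ^ 2 - 12 * n + 1) + 1) / 6 + 1 ↔
      6 * x - 1 ≤ Nat.sqrt (12 * n ^ 2 - 12 * n + 1) := by omega
  rw [h1, Nat.le_sqrt]
  have hn2 : 12 * n ≤ 12 * n ^ 2 := by nlinarith
  have h2 : ((6 * x - 1) * (6 * x - 1) ≤ 12 * n ^ 2 - 12 * n + 1) ↔
      ((((6 * x - 1) * (6 * x - 1) : ℕ) : ℤ) ≤ ((12 * n ^ 2 - 12 * n + 1 : ℕ) : ℤ)) := by
    exact_mod_cast Iff.rfl
  rw [h2]
  push_cast [Nat.cast_sub hn2, Nat.cast_sub (by omega : 1 ≤ 6 * x)]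
  constructor
  · intro h; nlinarith
  · intro h; nlinarith

lemma xopt_pos (n : ℕ) : 1 ≤ xopt n := by unfold xopt; omega

lemma xopt_le (n : ℕ) (hn : 1 ≤ n) : xopt n ≤ n := by
  by_contra hcon
  push Not at hcon
  have h := (xopt_iff n n hn hn).1 hcon
  have : (1 : ℤ) ≤ n := by exact_mod_cast hn
  nlinarith

lemma hz_le (n x : ℕ) (hn : 1 ≤ n) (hx : 1 ≤ x) : hz n x ≤ hz n (xopt n) := by
  rcases le_total x (xopt n) with h | h
  · obtain ⟨j, hj⟩ := Nat.exists_eq_add_of_le h
    have key : ∀ j y, 1 ≤ y → y + j = xopt n → hz n y ≤ hz n (xopt n) := by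
      intro j
      induction j with
      | zero => intro y _ hy; rw [← hy, Nat.add_zero]
      | succ j ih =>
        intro y hy1 hy
        have h1 := ih (y + 1) (by omega) (by omega)
        have h2 := hz_step n y
        have h3 := (xopt_iff n y hn hy1).1 (by omega)
        linarith
    exact key j x hx hj.symm
  · obtain ⟨j, hj⟩ := Nat.exists_eq_add_of_le h
    have key : ∀ j y, y = xopt n + j → hz n y ≤ hz n (xopt n) := by
      intro j
      induction j with
      | zero => intro y hy; rw [hy, Nat.add_zero]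
      | succ j ih =>
        intro y hy
        have h1 := ih (xopt n + j) rfl
        have h2 := hz_step n (xopt n + j)
        have h3 : ¬ ((((xopt n + j : ℕ) : ℤ)) * (3 * ((xopt n + j : ℕ) : ℤ) - 1) ≤
            (n : ℤ) ^ 2 - n) := by
          rw [← xopt_iff n (xopt n + j) hn (by have := xopt_pos n; omega)]
          omega
        push Not at h3
        rw [hy, ← add_assoc]
        linarith
    exact key j x hj

lemma h_eq (n x : ℕ) : Pool.Agent.X47.MadNumeric.h n x = (hz n x : ℝ) := by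
  unfold Pool.Agent.X47.MadNumeric.h hz
  push_cast
  ring

/-! ### Graph part -/

section graphs

variable {n : ℕ}

open Classical in
/-- The number of ordered adjacent pairs inside `S`. -/
noncomputable def D (G : SimpleGraph (Fin n)) (S : Finset (Fin n)) : ℕ :=
  (S.offDiag.filter fun p => G.Adj p.1 p.2).card

lemma D_eq (G : SimpleGraph (Fin n)) (S : Finset (Fin n))
    [DecidablePred fun p : Fin n × Fin n => G.Adj p.1 p.2] :
    D G S = (S.offDiag.filter fun p => G.Adj p.1 p.2).card := by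
  unfold D
  congr

lemma D_mono (G : SimpleGraph (Fin n)) {S T : Finset (Fin n)} (h : S ⊆ T) : D G S ≤ D G T := by
  classical
  apply Finset.card_le_card
  apply Finset.filter_subset_filter
  intro p hp
  rw [Finset.mem_offDiag] at hp ⊢
  exact ⟨h hp.1, h hp.2.1, hp.2.2⟩

lemma D_compl (G : SimpleGraph (Fin n)) (S : Finset (Fin n)) :
    (D G S : ℝ) + D Gᶜ S = S.card * ((S.card : ℝ) - 1) := by
  classical
  have h1 : D G S + D Gᶜ S = S.offDiag.card := by
    rw [D_eq G, D_eq Gᶜ]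
    rw [← Finset.card_filter_add_card_filter_not (s := S.offDiag) (fun p => G.Adj p.1 p.2)]
    congr 1
    apply congrArg Finset.card
    ext p
    rw [Finset.mem_filter, Finset.mem_filter, Finset.mem_offDiag, SimpleGraph.compl_adj]
    constructor
    · rintro ⟨h, _, h'⟩
      exact ⟨h, h'⟩
    · rintro ⟨h, h'⟩
      exact ⟨h, h.2.2, h'⟩
  rw [Finset.offDiag_card] at h1
  have h2 : S.card ≤ S.card * S.card := Nat.le_mul_self _
  have h3 : ((D G S + D Gᶜ S : ℕ) : ℝ) = ((S.card * S.card - S.card : ℕ) : ℝ) := by rw [h1]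
  push_cast [Nat.cast_sub h2] at h3
  rw [h3]
  ring

/-- Twice the number of edges of a subgraph is the number of ordered adjacent pairs. -/
lemma two_edges {G : SimpleGraph (Fin n)} (H : G.Subgraph) [DecidableEq (Fin n)]
    [DecidablePred fun p : Fin n × Fin n => H.Adj p.1 p.2] :
    2 * H.edgeSet.ncard = (Finset.univ.filter fun p : Fin n × Fin n => H.Adj p.1 p.2).card := by
  classical
  have h1 := H.spanningCoe.sum_degrees_eq_twice_card_edges
  have h2 : H.spanningCoe.edgeFinset.card = H.edgeSet.ncard := by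
    rw [← Set.ncard_coe_finset, SimpleGraph.coe_edgeFinset, SimpleGraph.Subgraph.edgeSet_spanningCoe]
  rw [h2] at h1
  rw [← h1]
  have h3 : (Finset.univ.filter fun p : Fin n × Fin n => H.Adj p.1 p.2).card =
      ∑ v : Fin n, (Finset.univ.filter fun w => H.Adj v w).card := by
    simp only [Finset.card_filter]
    rw [← Finset.univ_product_univ, Finset.sum_product]
    apply Finset.sum_congr rfl
    intro a _
    apply Finset.sum_congr rfl
    intro b _
    by_cases hab : H.Adj a b <;> simp [hab]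
  rw [h3]
  apply Finset.sum_congr rfl
  intro v _
  rw [← SimpleGraph.card_neighborFinset_eq_degree]
  congr 1
  ext w
  simp

lemma value_le (G : SimpleGraph (Fin n)) (H : G.Subgraph) :
    2 * (H.edgeSet.ncard : ℝ) ≤ D G H.verts.toFinite.toFinset := by
  classical
  have h1 := two_edges H
  have h2 : (Finset.univ.filter fun p : Fin n × Fin n => H.Adj p.1 p.2).card ≤
      D G H.verts.toFinite.toFinset := by
    apply Finset.card_le_card
    intro p hp
    rw [Finset.mem_filter] at hp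
    rw [Finset.mem_filter, Finset.mem_offDiag, Set.Finite.mem_toFinset, Set.Finite.mem_toFinset]
    exact ⟨⟨H.edge_vert hp.2, H.edge_vert hp.2.symm, hp.2.ne⟩, hp.2.adj_sub⟩
  rw [← h1] at h2
  exact_mod_cast h2

lemma Mad_le (hn : 1 ≤ n) (G : SimpleGraph (Fin n)) : ∃ A : Finset (Fin n), A.Nonempty ∧
    Mad G ≤ (D G A : ℝ) / A.card ∧
    ∀ H : G.Subgraph, H.verts.Nonempty → 2 * (H.edgeSet.ncard : ℝ) / (H.verts.ncard : ℝ) ≤
      (D G A : ℝ) / A.card := by
  classical
  haveI : Nonempty (Fin n) := ⟨⟨0, hn⟩⟩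
  obtain ⟨A, hA, hmax⟩ := Finset.exists_max_image
    (Finset.univ.filter fun A : Finset (Fin n) => A.Nonempty)
    (fun A => (D G A : ℝ) / A.card) ⟨Finset.univ, by simp⟩
  have hall : ∀ H : G.Subgraph, H.verts.Nonempty →
      2 * (H.edgeSet.ncard : ℝ) / (H.verts.ncard : ℝ) ≤ (D G A : ℝ) / A.card := by
    intro H hH
    have h1 := value_le G H
    have h2 : (H.verts.ncard : ℝ) = (H.verts.toFinite.toFinset.card : ℝ) := by
      rw [Set.ncard_eq_toFinset_card _ H.verts.toFinite]
    have h3 := hmax H.verts.toFinite.toFinset (by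
      rw [Finset.mem_filter]
      refine ⟨Finset.mem_univ _, ?_⟩
      rwa [Set.Finite.toFinset_nonempty])
    refine le_trans ?_ h3
    rw [h2]
    exact div_le_div_of_nonneg_right h1 (Nat.cast_nonneg _)
  refine ⟨A, (Finset.mem_filter.1 hA).2, ?_, hall⟩
  apply csSup_le
  · refine ⟨_, ⊤, ?_, rfl⟩
    exact ⟨⟨0, hn⟩, trivial⟩
  · rintro _ ⟨H, hH, rfl⟩
    exact hall H hH

lemma Mad_nonneg (G : SimpleGraph (Fin n)) : 0 ≤ Mad G := by
  apply Real.sSup_nonneg
  rintro _ ⟨H, _, rfl⟩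
  positivity

lemma le_Mad (hn : 1 ≤ n) (G : SimpleGraph (Fin n)) (S : Finset (Fin n)) (hS : S.Nonempty) :
    (D G S : ℝ) / S.card ≤ Mad G := by
  classical
  obtain ⟨A, _, _, hall⟩ := Mad_le hn G
  have hbdd : BddAbove {r | ∃ H : G.Subgraph, H.verts.Nonempty ∧
      r = 2 * (H.edgeSet.ncard : ℝ) / (H.verts.ncard : ℝ)} := by
    refine ⟨(D G A : ℝ) / A.card, ?_⟩
    rintro _ ⟨H, hH, rfl⟩
    exact hall H hH
  apply le_csSup hbdd
  refine ⟨(⊤ : G.Subgraph).induce (S : Set (Fin n)), ?_, ?_⟩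
  · exact hS
  · have h1 := two_edges ((⊤ : G.Subgraph).induce (S : Set (Fin n)))
    have h2 : (Finset.univ.filter fun p : Fin n × Fin n =>
        ((⊤ : G.Subgraph).induce (S : Set (Fin n))).Adj p.1 p.2).card = D G S := by
      unfold D
      congr 1
      ext p
      rw [Finset.mem_filter, Finset.mem_filter, Finset.mem_offDiag]
      simp only [SimpleGraph.Subgraph.induce_adj, SimpleGraph.Subgraph.top_adj, Finset.mem_coe,
        Finset.mem_univ, true_and]
      constructor
      · rintro ⟨h3, h4, h5⟩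
        exact ⟨⟨h3, h4, h5.ne⟩, h5⟩
      · rintro ⟨⟨h3, h4, _⟩, h5⟩
        exact ⟨h3, h4, h5⟩
    rw [h2] at h1
    have h3 : ((⊤ : G.Subgraph).induce (S : Set (Fin n))).verts.ncard = S.card := by
      rw [SimpleGraph.Subgraph.induce_verts, Set.ncard_coe_finset]
    rw [h3]
    congr 1
    exact_mod_cast h1.symm

/-- The upper bound for `n ≥ 3`. -/
lemma upper3 (hn : 3 ≤ n) (G : SimpleGraph (Fin n)) :
    Mad G * Mad Gᶜ ≤ (hz n (xopt n) : ℝ) / n := by
  classical
  obtain ⟨A, hAne, hA, _⟩ := Mad_le (by omega) G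
  obtain ⟨B, hBne, hB, _⟩ := Mad_le (by omega) Gᶜ
  have ha : 1 ≤ A.card := hAne.card_pos
  have hb : 1 ≤ B.card := hBne.card_pos
  have haR : (1 : ℝ) ≤ A.card := by exact_mod_cast ha
  have hbR : (1 : ℝ) ≤ B.card := by exact_mod_cast hb
  have han : A.card ≤ n := by
    have := Finset.card_le_univ A
    rwa [Fintype.card_fin] at this
  have hbn : B.card ≤ n := by
    have := Finset.card_le_univ B
    rwa [Fintype.card_fin] at this
  have hcA : A ∩ B ⊆ A := Finset.inter_subset_left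
  have hcB : A ∩ B ⊆ B := Finset.inter_subset_right
  have habc : A.card + B.card ≤ n + (A ∩ B).card := by
    have h1 := Finset.card_union_add_card_inter A B
    have h2 := Finset.card_le_univ (A ∪ B)
    rw [Fintype.card_fin] at h2
    omega
  have e1 := D_compl G A
  have e2 := D_compl G B
  have e3 := D_compl G (A ∩ B)
  have m1 : (D Gᶜ (A ∩ B) : ℝ) ≤ D Gᶜ A := by exact_mod_cast D_mono Gᶜ hcA
  have m2 : (D G (A ∩ B) : ℝ) ≤ D G B := by exact_mod_cast D_mono G hcB
  obtain ⟨x, hx1, hxn, hx⟩ := Pool.Agent.X47.MadNumeric.numeric n A.card B.card (A ∩ B).card hn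
    ha han hb hbn (Finset.card_le_card hcA) (Finset.card_le_card hcB) habc (D G (A ∩ B))
    (Nat.cast_nonneg _) (by rw [← e3]; linarith [(Nat.cast_nonneg _ : (0 : ℝ) ≤ D Gᶜ (A ∩ B))])
  have hDA : (D G A : ℝ) ≤ A.card * ((A.card : ℝ) - 1) -
      (A ∩ B).card * (((A ∩ B).card : ℝ) - 1) + D G (A ∩ B) := by linarith
  have hDB : (D Gᶜ B : ℝ) ≤ B.card * ((B.card : ℝ) - 1) - D G (A ∩ B) := by linarith
  have hDA0 : (0 : ℝ) ≤ D G A := Nat.cast_nonneg _
  have hDB0 : (0 : ℝ) ≤ D Gᶜ B := Nat.cast_nonneg _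
  have hprod : (D G A : ℝ) * D Gᶜ B ≤ (A.card * ((A.card : ℝ) - 1) -
      (A ∩ B).card * (((A ∩ B).card : ℝ) - 1) + D G (A ∩ B)) *
      (B.card * ((B.card : ℝ) - 1) - D G (A ∩ B)) :=
    mul_le_mul hDA hDB hDB0 (hDA0.trans hDA)
  have hnR : (0 : ℝ) < n := by
    have : 0 < n := by omega
    exact_mod_cast this
  have h5 : Mad G * Mad Gᶜ ≤ ((D G A : ℝ) / A.card) * ((D Gᶜ B : ℝ) / B.card) :=
    mul_le_mul hA hB (Mad_nonneg _) (div_nonneg hDA0 (by linarith))
  refine h5.trans ?_
  rw [div_mul_div_comm, div_le_div_iff₀ (by positivity) hnR]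
  have h6 : (hz n x : ℝ) ≤ hz n (xopt n) := by exact_mod_cast hz_le n x (by omega) hx1
  rw [h_eq] at hx
  calc (D G A : ℝ) * D Gᶜ B * n = n * ((D G A : ℝ) * D Gᶜ B) := by ring
    _ ≤ n * ((A.card * ((A.card : ℝ) - 1) -
      (A ∩ B).card * (((A ∩ B).card : ℝ) - 1) + D G (A ∩ B)) *
      (B.card * ((B.card : ℝ) - 1) - D G (A ∩ B))) := mul_le_mul_of_nonneg_left hprod hnR.le
    _ ≤ A.card * B.card * hz n x := hx
    _ ≤ A.card * B.card * hz n (xopt n) := mul_le_mul_of_nonneg_left h6 (by positivity)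
    _ = hz n (xopt n) * (A.card * B.card) := by ring

lemma Mad_bot (hn : 1 ≤ n) (G : SimpleGraph (Fin n)) (h : ∀ i j, ¬ G.Adj i j) : Mad G = 0 := by
  classical
  obtain ⟨A, _, hA, _⟩ := Mad_le hn G
  apply le_antisymm _ (Mad_nonneg G)
  have : D G A = 0 := by
    unfold D
    rw [Finset.card_eq_zero, Finset.filter_eq_empty_iff]
    intro p _
    exact h _ _
  rw [this] at hA
  simpa using hA

/-- The upper bound for all `n ≥ 1`. -/
lemma upper (hn : 1 ≤ n) (G : SimpleGraph (Fin n)) :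
    Mad G * Mad Gᶜ ≤ (hz n (xopt n) : ℝ) / n := by
  by_cases h3 : 3 ≤ n
  · exact upper3 h3 G
  · have hzn : (0 : ℝ) ≤ (hz n (xopt n) : ℝ) / n := by
      have h1 := hz_le n 1 hn (le_refl _)
      have h2 : hz n 1 = 0 := by unfold hz; simp
      rw [h2] at h1
      have : (0 : ℝ) ≤ (hz n (xopt n) : ℝ) := by exact_mod_cast h1
      positivity
    have h0 : Mad G * Mad Gᶜ = 0 := by
      have hcase : (∀ i j, ¬ G.Adj i j) ∨ (∀ i j, ¬ Gᶜ.Adj i j) := by
        rcases (by omega : n = 1 ∨ n = 2) with rfl | rfl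
        · left
          intro i j hij
          exact hij.ne (Subsingleton.elim _ _)
        · by_cases h01 : G.Adj 0 1
          · right
            intro i j hij
            rw [SimpleGraph.compl_adj] at hij
            fin_cases i <;> fin_cases j
            · exact hij.1 rfl
            · exact hij.2 h01
            · exact hij.2 h01.symm
            · exact hij.1 rfl
          · left
            intro i j hij
            fin_cases i <;> fin_cases j
            · exact hij.ne rfl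
            · exact h01 hij
            · exact h01 hij.symm
            · exact hij.ne rfl
      rcases hcase with h | h
      · rw [Mad_bot hn G h, zero_mul]
      · rw [Mad_bot hn Gᶜ h, mul_zero]
    rw [h0]
    exact hzn

lemma card_lt (x : ℕ) (hx : x ≤ n) : (Finset.univ.filter fun i : Fin n => (i : ℕ) < x).card = x := by
  classical
  have : (Finset.univ.filter fun i : Fin n => (i : ℕ) < x) =
      (Finset.univ : Finset (Fin x)).map (Fin.castLEEmb hx) := by
    ext i
    simp only [Finset.mem_filter, Finset.mem_univ, true_and, Finset.mem_map, Fin.coe_castLEEmb]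
    constructor
    · intro h
      exact ⟨⟨i, h⟩, Fin.ext rfl⟩
    · rintro ⟨j, rfl⟩
      exact j.2
  rw [this]
  simp

/-- The lower bound. -/
lemma lower (hn : 1 ≤ n) (x : ℕ) (hx1 : 1 ≤ x) (hxn : x ≤ n) :
    (hz n x : ℝ) / n ≤ Mad (cliqueType n x) * Mad (cliqueType n x)ᶜ := by
  classical
  have hnR : (1 : ℝ) ≤ n := by exact_mod_cast hn
  have hxR : (1 : ℝ) ≤ x := by exact_mod_cast hx1
  have hxnR : (x : ℝ) ≤ n := by exact_mod_cast hxn
  set S := Finset.univ.filter fun i : Fin n => (i : ℕ) < x with hS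
  have hScard : S.card = x := card_lt x hxn
  have hSne : S.Nonempty := by rw [← Finset.card_pos]; omega
  have hcS : D (cliqueType n x)ᶜ S = 0 := by
    rw [D_eq, Finset.card_eq_zero, Finset.eq_empty_iff_forall_notMem]
    intro p hp
    rw [Finset.mem_filter, Finset.mem_offDiag, hS, Finset.mem_filter, Finset.mem_filter,
      SimpleGraph.compl_adj] at hp
    exact hp.2.2 ⟨hp.1.2.2, hp.1.1.2, hp.1.2.1.2⟩
  have e1 := D_compl (cliqueType n x) S
  rw [hcS, hScard, Nat.cast_zero, add_zero] at e1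
  have h1 := le_Mad hn (cliqueType n x) S hSne
  rw [e1, hScard, mul_div_cancel_left₀ _ (by linarith)] at h1
  have e2 := D_compl (cliqueType n x) Finset.univ
  have e3 : D (cliqueType n x) Finset.univ = D (cliqueType n x) S := by
    unfold D
    congr 1
    ext p
    simp only [Finset.mem_filter, Finset.mem_offDiag, Finset.mem_univ, true_and, hS]
    constructor
    · rintro ⟨h3, h4⟩
      exact ⟨⟨h4.2.1, h4.2.2, h3⟩, h4⟩
    · rintro ⟨⟨_, _, h3⟩, h4⟩
      exact ⟨h3, h4⟩
  rw [e3, e1, Finset.card_univ, Fintype.card_fin] at e2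
  haveI : Nonempty (Fin n) := ⟨⟨0, hn⟩⟩
  have h2 := le_Mad hn (cliqueType n x)ᶜ Finset.univ Finset.univ_nonempty
  have e4 : (D (cliqueType n x)ᶜ Finset.univ : ℝ) = (n - x) * (n + x - 1) := by linarith
  rw [e4, Finset.card_univ, Fintype.card_fin] at h2
  have h3 : (0 : ℝ) ≤ (n - x) * (n + x - 1) / n :=
    div_nonneg (mul_nonneg (by linarith) (by linarith)) (by linarith)
  calc (hz n x : ℝ) / n = ((x : ℝ) - 1) * ((n - x) * (n + x - 1) / n) := by
        unfold hz
        push_cast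
        ring
    _ ≤ Mad (cliqueType n x) * Mad (cliqueType n x)ᶜ := mul_le_mul h1 h2 h3 (Mad_nonneg _)

end graphs

/-- For every `n ≥ 1`, with `x = ⌊(1 + √(12n²-12n+1))/6⌋ + 1`, one has
`f(n) = (x-1)(n-x)(n+x-1)/n`, and this value is attained by the graph consisting of a clique on
`x` vertices and `n - x` isolated vertices. -/
theorem result : ∀ n : ℕ, 1 ≤ n →
    1 ≤ xopt n ∧ xopt n ≤ n ∧
    f n = ((xopt n : ℝ) - 1) * ((n : ℝ) - xopt n) * ((n : ℝ) + xopt n - 1) / n ∧
    Mad (cliqueType n (xopt n)) * Mad (cliqueType n (xopt n))ᶜ = f n := by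
  intro n hn
  have hup : ∀ r ∈ {r | ∃ G : SimpleGraph (Fin n), r = Mad G * Mad Gᶜ},
      r ≤ (hz n (xopt n) : ℝ) / n := by
    rintro _ ⟨G, rfl⟩
    exact upper hn G
  have hlow := lower hn (xopt n) (xopt_pos n) (xopt_le n hn)
  have hmem : Mad (cliqueType n (xopt n)) * Mad (cliqueType n (xopt n))ᶜ ∈
      {r | ∃ G : SimpleGraph (Fin n), r = Mad G * Mad Gᶜ} := ⟨_, rfl⟩
  have hf1 : f n ≤ (hz n (xopt n) : ℝ) / n := csSup_le ⟨_, hmem⟩ hup
  have hf2 : Mad (cliqueType n (xopt n)) * Mad (cliqueType n (xopt n))ᶜ ≤ f n :=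
    le_csSup ⟨_, hup⟩ hmem
  refine ⟨xopt_pos n, xopt_le n hn, ?_, ?_⟩
  · have h1 : f n = (hz n (xopt n) : ℝ) / n := le_antisymm hf1 (hlow.trans hf2)
    rw [h1]
    unfold hz
    push_cast
    ring
  · exact le_antisymm hf2 (hf1.trans hlow)

end Pool.Agent.Results.MP_0f9677_co.ExactValue
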